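import Pool.Agent.H43.PS.Targets

/-! Module RES of the board `psd_modules`: the resolvent inequality. -/

set_option autoImplicit false

namespace H43.PS

open Matrix Finset

theorem res_tr (hSPC : T_SPC) {κ : Type} [Fintype κ] [DecidableEq κ] {X Y : Matrix κ κ ℝ}
    (hX : X.PosSemidef) (hY : Y.PosSemidef) : 0 ≤ (X * Y).trace := by
  obtain ⟨U, a, hU1, hU2, hA, hpos, _⟩ := hSPC κ Y hY.isHermitian
  have ha := hpos hY
  have h1 : (X * Y).trace = (Uᴴ * X * U * diagonal a).trace := by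
    rw [hA, ← Matrix.mul_assoc, Matrix.trace_mul_comm]
    simp only [Matrix.mul_assoc, Matrix.conjTranspose_eq_transpose_of_trivial]
  rw [h1, Matrix.trace]
  refine Finset.sum_nonneg fun i _ => ?_
  rw [Matrix.diag_apply, Matrix.mul_diagonal]
  exact mul_nonneg (hX.conjTranspose_mul_mul_same U).diag_nonneg (ha i)

/-- the inverse is antitone -/
theorem res_anti {κ : Type} [Fintype κ] [DecidableEq κ] {R B : Matrix κ κ ℝ}
    (hR : R.PosDef) (hB : B.PosSemidef) : (R⁻¹ - (R + B)⁻¹).PosSemidef := by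
  have hQ : (R + B).PosDef := hR.add_posSemidef hB
  have hRu : IsUnit R.det := (Matrix.isUnit_iff_isUnit_det R).1 hR.isUnit
  have hQu : IsUnit (R + B).det := (Matrix.isUnit_iff_isUnit_det (R + B)).1 hQ.isUnit
  have h1 : R * R⁻¹ = 1 := Matrix.mul_nonsing_inv _ hRu
  have h2 : R⁻¹ * R = 1 := Matrix.nonsing_inv_mul _ hRu
  have h3 : (R + B) * (R + B)⁻¹ = 1 := Matrix.mul_nonsing_inv _ hQu
  have h4 : (R + B)⁻¹ * (R + B) = 1 := Matrix.nonsing_inv_mul _ hQu
  have hP : (B + B * R⁻¹ * B).PosSemidef := by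
    refine hB.add ?_
    have := hR.inv.posSemidef.conjTranspose_mul_mul_same B
    rwa [hB.isHermitian.eq] at this
  have hH : ((R + B)⁻¹)ᴴ = (R + B)⁻¹ := hQ.inv.isHermitian.eq
  have key : R⁻¹ - (R + B)⁻¹ = ((R + B)⁻¹)ᴴ * (B + B * R⁻¹ * B) * (R + B)⁻¹ := by
    rw [hH]
    have e1 : B + B * R⁻¹ * B = (R + B) * R⁻¹ * (R + B) - (R + B) := by
      have : (R + B) * R⁻¹ * (R + B) = R * R⁻¹ * R + R * R⁻¹ * B + B * (R⁻¹ * R) + B * R⁻¹ * B := by
        noncomm_ring
      rw [this, h1, h2]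
      noncomm_ring
    rw [e1, mul_sub, sub_mul]
    have e2 : (R + B)⁻¹ * ((R + B) * R⁻¹ * (R + B)) * (R + B)⁻¹ = R⁻¹ := by
      calc (R + B)⁻¹ * ((R + B) * R⁻¹ * (R + B)) * (R + B)⁻¹
          = ((R + B)⁻¹ * (R + B)) * R⁻¹ * ((R + B) * (R + B)⁻¹) := by
            simp only [Matrix.mul_assoc]
        _ = R⁻¹ := by rw [h4, h3, Matrix.one_mul, Matrix.mul_one]
    rw [e2, h4, Matrix.one_mul]
  rw [key]
  exact hP.conjTranspose_mul_mul_same _

theorem RES (_hUNI : T_UNI) (hSPC : T_SPC) : T_RES := by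
  intro κ _ _ B E hB hE
  have one_pd : (1 : Matrix κ κ ℝ).PosDef := Matrix.PosDef.one
  have hP : (1 + B).PosDef := one_pd.add_posSemidef hB
  have hR : (1 + E).PosDef := one_pd.add_posSemidef hE
  have hQ : (1 + B + E).PosDef := hP.add_posSemidef hE
  have hPu : IsUnit (1 + B).det := (Matrix.isUnit_iff_isUnit_det _).1 hP.isUnit
  have hQu : IsUnit (1 + B + E).det := (Matrix.isUnit_iff_isUnit_det _).1 hQ.isUnit
  have hEH : Eᴴ = E := hE.isHermitian.eq
  -- the difference of the resolvents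
  have d1 : (1 + B)⁻¹ - (1 + B + E)⁻¹ = (1 + B)⁻¹ * E * (1 + B + E)⁻¹ := by
    have e : E = (1 + B + E) - (1 + B) := by noncomm_ring
    calc (1 + B)⁻¹ - (1 + B + E)⁻¹
        = (1 + B)⁻¹ * ((1 + B + E) * (1 + B + E)⁻¹) - ((1 + B)⁻¹ * (1 + B)) * (1 + B + E)⁻¹ := by
          rw [Matrix.mul_nonsing_inv _ hQu, Matrix.nonsing_inv_mul _ hPu, Matrix.mul_one,
            Matrix.one_mul]
      _ = (1 + B)⁻¹ * ((1 + B + E) - (1 + B)) * (1 + B + E)⁻¹ := by
          rw [mul_sub, sub_mul]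
          simp only [Matrix.mul_assoc]
      _ = (1 + B)⁻¹ * E * (1 + B + E)⁻¹ := by rw [← e]
  have s0 : (E * ((1 + B)⁻¹ - (1 + B + E)⁻¹)).trace = ((1 + B)⁻¹ * (E * (1 + B + E)⁻¹ * E)).trace := by
    rw [d1, Matrix.trace_mul_comm]
    simp only [Matrix.mul_assoc]
  -- first step
  have s1 : ((1 + B)⁻¹ * (E * (1 + B + E)⁻¹ * E)).trace ≤ (E * (1 + B + E)⁻¹ * E).trace := by
    have hX : (E * (1 + B + E)⁻¹ * E).PosSemidef := by
      have := hQ.inv.posSemidef.conjTranspose_mul_mul_same E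
      rwa [hEH] at this
    have hY : ((1 : Matrix κ κ ℝ)⁻¹ - (1 + B)⁻¹).PosSemidef := res_anti one_pd hB
    rw [inv_one] at hY
    have := res_tr hSPC hY hX
    rw [sub_mul, Matrix.one_mul, Matrix.trace_sub] at this
    linarith
  -- second step
  have s2 : (E * (1 + B + E)⁻¹ * E).trace ≤ (E * E * (1 + E)⁻¹).trace := by
    have hX : (E * E).PosSemidef := by
      have := Matrix.posSemidef_conjTranspose_mul_self E
      rwa [hEH] at this
    have hY : ((1 + E)⁻¹ - ((1 + E) + B)⁻¹).PosSemidef := res_anti hR hB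
    have e : (1 + E) + B = 1 + B + E := by abel
    rw [e] at hY
    have h := res_tr hSPC hX hY
    rw [mul_sub, Matrix.trace_sub] at h
    have h2 : (E * (1 + B + E)⁻¹ * E).trace = (E * E * (1 + B + E)⁻¹).trace := by
      rw [Matrix.trace_mul_comm, ← Matrix.mul_assoc]
    rw [h2]
    linarith
  -- the right hand side
  have s3 : (E * E * (1 + E)⁻¹).trace = tf (fun t => t ^ 2 / (1 + t)) E := by
    obtain ⟨U, a, hU1, hU2, hA, hpos, hf⟩ := hSPC κ E hE.isHermitian
    have ha := hpos hE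
    rw [(hf _).2]
    have h1E : 1 + E = U * diagonal (fun i => 1 + a i) * Uᵀ := by
      have : diagonal (fun i => 1 + a i) = (1 : Matrix κ κ ℝ) + diagonal a := by
        rw [← Matrix.diagonal_one, Matrix.diagonal_add]
      rw [this, mul_add, add_mul, Matrix.mul_one, hU2, ← hA]
    have hinv : (1 + E)⁻¹ = U * diagonal (fun i => (1 + a i)⁻¹) * Uᵀ := by
      apply Matrix.inv_eq_right_inv
      rw [h1E]
      calc U * diagonal (fun i => 1 + a i) * Uᵀ * (U * diagonal (fun i => (1 + a i)⁻¹) * Uᵀ)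
          = U * (diagonal (fun i => 1 + a i) * (Uᵀ * U) * diagonal (fun i => (1 + a i)⁻¹)) * Uᵀ := by
            simp only [Matrix.mul_assoc]
        _ = 1 := by
            rw [hU1, Matrix.mul_one, Matrix.diagonal_mul_diagonal]
            have : (fun i => (1 + a i) * (1 + a i)⁻¹) = fun _ => (1 : ℝ) := by
              funext i
              have := ha i
              exact mul_inv_cancel₀ (by positivity)
            rw [this, Matrix.diagonal_one, Matrix.mul_one, hU2]
    have hall : E * E * (1 + E)⁻¹ = U * diagonal (fun i => a i * a i * (1 + a i)⁻¹) * Uᵀ := by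
      rw [hinv]
      calc E * E * (U * diagonal (fun i => (1 + a i)⁻¹) * Uᵀ)
          = (U * diagonal a * Uᵀ) * (U * diagonal a * Uᵀ) *
            (U * diagonal (fun i => (1 + a i)⁻¹) * Uᵀ) := by rw [← hA]
        _ = U * (diagonal a * (Uᵀ * U) * diagonal a * (Uᵀ * U) *
            diagonal (fun i => (1 + a i)⁻¹)) * Uᵀ := by
            simp only [Matrix.mul_assoc]
        _ = _ := by
            rw [hU1, Matrix.mul_one, Matrix.mul_one, Matrix.diagonal_mul_diagonal,
              Matrix.diagonal_mul_diagonal]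
    rw [hall, Matrix.trace_mul_comm, ← Matrix.mul_assoc, hU1, Matrix.one_mul,
      Matrix.trace_diagonal]
    refine Finset.sum_congr rfl fun i _ => ?_
    rw [div_eq_mul_inv]
    ring
  rw [s0, ← s3]
  exact s1.trans s2

end H43.PS
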