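import Pool.Agent.H43.PS.Targets

/-! Row STI of `psd_modules`: one block, induction on the number of choices. -/

set_option autoImplicit false

namespace H43.PS

open Matrix Finset

namespace H2STI

lemma av_cons {Θ : Type} [Fintype Θ] [DecidableEq Θ] {q : ℕ} (f : (Fin (q + 1) → Θ) → ℝ) :
    av f = av (fun a' : Fin q → Θ => av (fun θ : Θ => f (Fin.cons θ a'))) := by
  unfold av
  have h1 : ∑ x, f x = ∑ a' : Fin q → Θ, ∑ θ : Θ, f (Fin.cons θ a') := by
    rw [← (Fin.consEquiv (fun _ : Fin (q + 1) => Θ)).sum_comp f, Fintype.sum_prod_type_right]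
    rfl
  rw [h1, ← Finset.mul_sum, ← mul_assoc]
  congr 1
  simp only [Fintype.card_fun, Fintype.card_fin]
  push_cast
  rw [← mul_inv, pow_succ]

lemma avm_apply {X κ : Type} [Fintype X] (g : X → Matrix κ κ ℝ) (x y : κ) :
    avm g x y = av (fun a => g a x y) := by
  unfold avm av
  rw [Matrix.smul_apply, Matrix.sum_apply, smul_eq_mul]

lemma avm_cons {Θ κ : Type} [Fintype Θ] [DecidableEq Θ] {q : ℕ} (g : (Fin (q + 1) → Θ) → Matrix κ κ ℝ) :
    avm g = avm (fun a' : Fin q → Θ => avm (fun θ : Θ => g (Fin.cons θ a'))) := by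
  ext x y
  rw [avm_apply, avm_apply, av_cons]
  simp only [avm_apply]

lemma avm_psd {X κ : Type} [Fintype X] [Fintype κ] (g : X → Matrix κ κ ℝ)
    (hg : ∀ a, (g a).PosSemidef) : (avm g).PosSemidef := by
  unfold avm
  refine Matrix.PosSemidef.smul ?_ (by positivity)
  exact Matrix.posSemidef_sum _ (fun a _ => hg a)

lemma av_mono {X : Type} [Fintype X] {f g : X → ℝ} (h : ∀ a, f a ≤ g a) : av f ≤ av g := by
  unfold av
  exact mul_le_mul_of_nonneg_left (Finset.sum_le_sum (fun a _ => h a)) (by positivity)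

lemma av_add {X : Type} [Fintype X] (f g : X → ℝ) : av (fun a => f a + g a) = av f + av g := by
  unfold av
  rw [Finset.sum_add_distrib, mul_add]

lemma av_sub {X : Type} [Fintype X] (f g : X → ℝ) : av (fun a => f a - g a) = av f - av g := by
  unfold av
  rw [Finset.sum_sub_distrib, mul_sub]

lemma av_mul {X : Type} [Fintype X] (c : ℝ) (f : X → ℝ) : av (fun a => c * f a) = c * av f := by
  unfold av
  rw [← Finset.mul_sum]; ring

lemma av_mul' {X : Type} [Fintype X] (c : ℝ) (f : X → ℝ) : av (fun a => f a * c) = av f * c := by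
  unfold av
  rw [← Finset.sum_mul]; ring

lemma av_sum {X Y : Type} [Fintype X] (s : Finset Y) (f : Y → X → ℝ) :
    av (fun a => ∑ i ∈ s, f i a) = ∑ i ∈ s, av (f i) := by
  unfold av
  rw [Finset.sum_comm, Finset.mul_sum]

lemma av_ite {Θ : Type} [Fintype Θ] [DecidableEq Θ] (hΘ : 0 < Fintype.card Θ) (θ : Θ) (f : Θ → ℝ) :
    av (fun θ' : Θ => (if θ' = θ then (Fintype.card Θ : ℝ) else 0) * f θ') = f θ := by
  unfold av
  have h : ∑ θ' : Θ, (if θ' = θ then (Fintype.card Θ : ℝ) else 0) * f θ' = (Fintype.card Θ : ℝ) * f θ := by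
    rw [Finset.sum_eq_single θ]
    · simp
    · intro b _ hb; simp [hb]
    · intro h; exact absurd (Finset.mem_univ _) h
  rw [h, ← mul_assoc, inv_mul_cancel₀ (by exact_mod_cast hΘ.ne'), one_mul]

/-- the stronger form: the errors `e b` do not depend on the weight `σ`. -/
theorem STIW (hSPL : T_SPL) (hCVX : T_CVX) (κ Θ : Type) [Fintype κ] [DecidableEq κ] [Fintype Θ]
    [DecidableEq Θ] (p : ℝ) (hp1 : 1 < p) (hp2 : p < 3 / 2) (hΘ : 0 < Fintype.card Θ) :
    ∀ (q : ℕ) (g : (Fin q → Θ) → Matrix κ κ ℝ), (∀ a, (g a).PosSemidef) →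
    ∃ e : Fin q → ℝ, (∀ b, 0 ≤ e b) ∧
      ∑ b, e b ≤ (Fintype.card Θ : ℝ) / (p - 1) * (av (fun a => tp p (g a)) - tp p (avm g)) ∧
      ∀ (b : Fin q) (σ : ℝ), 0 < σ →
        ∃ G : Matrix (Option Θ × κ) (Option Θ × κ) ℝ, G.PosSemidef ∧
          (∀ θ x y, av (fun a : Fin q → Θ => (if a b = θ then (Fintype.card Θ : ℝ) else 0) * g a x y) =
            ∑ u, ∑ u', cc σ θ u * cc σ θ u' * G (u, x) (u', y)) ∧
          tp p G ≤ ((Fintype.card Θ : ℝ) + 1) ^ (p - 1) *
            (av (fun a => tp p (g a)) + σ ^ (2 * p) * e b) := by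
  intro q
  have hQ : (0 : ℝ) ≤ (Fintype.card Θ : ℝ) / (p - 1) := div_nonneg (by positivity) (by linarith)
  have hcard : ∀ m : ℕ, 0 < Fintype.card (Fin m → Θ) := by
    intro m
    rw [Fintype.card_fun]; exact pow_pos hΘ _
  induction q with
  | zero =>
    intro g hg
    refine ⟨fun _ => 0, fun _ => le_refl _, ?_, fun b => b.elim0⟩
    rw [Finset.univ_eq_empty, Finset.sum_empty]
    have h := (hCVX κ (Fin 0 → Θ) g p hp1 hp2 (hcard 0) hg).1
    exact mul_nonneg hQ (by linarith)
  | succ q ih =>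
    intro g hg
    set g' : (Fin q → Θ) → Matrix κ κ ℝ := fun a' => avm (fun θ : Θ => g (Fin.cons θ a')) with hg'
    have hg'psd : ∀ a', (g' a').PosSemidef := fun a' => avm_psd _ (fun θ => hg _)
    obtain ⟨e', he'0, he's, he'G⟩ := ih g' hg'psd
    have hcv : ∀ a' : Fin q → Θ, tp p (g' a') ≤ av (fun θ : Θ => tp p (g (Fin.cons θ a'))) := fun a' =>
      (hCVX κ Θ (fun θ => g (Fin.cons θ a')) p hp1 hp2 hΘ (fun θ => hg _)).1
    have hΦ : av (fun a' => tp p (g' a')) ≤ av (fun a => tp p (g a)) := by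
      rw [av_cons (fun a => tp p (g a))]
      exact av_mono hcv
    have havm : avm g' = avm g := (avm_cons g).symm
    have hK : (0 : ℝ) ≤ ((Fintype.card Θ : ℝ) + 1) ^ (p - 1) := by positivity
    refine ⟨Fin.cons ((Fintype.card Θ : ℝ) / (p - 1) *
      (av (fun a => tp p (g a)) - av (fun a' => tp p (g' a')))) e', ?_, ?_, ?_⟩
    · intro b
      refine Fin.cases ?_ (fun j => ?_) b
      · rw [Fin.cons_zero]; exact mul_nonneg hQ (by linarith)
      · rw [Fin.cons_succ]; exact he'0 j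
    · rw [Fin.sum_univ_succ]
      simp only [Fin.cons_zero, Fin.cons_succ]
      rw [havm] at he's
      have : (Fintype.card Θ : ℝ) / (p - 1) * (av (fun a => tp p (g a)) - tp p (avm g)) =
        (Fintype.card Θ : ℝ) / (p - 1) * (av (fun a => tp p (g a)) - av (fun a' => tp p (g' a'))) +
        (Fintype.card Θ : ℝ) / (p - 1) * (av (fun a' => tp p (g' a')) - tp p (avm g)) := by ring
      rw [this]
      linarith
    · intro b σ hσ
      refine Fin.cases ?_ (fun j => ?_) b
      · -- the first letter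
        have hS : ∀ a' : Fin q → Θ, ∃ G : Matrix (Option Θ × κ) (Option Θ × κ) ℝ, G.PosSemidef ∧
            (∀ θ x y, g (Fin.cons θ a') x y = ∑ u, ∑ u', cc σ θ u * cc σ θ u' * G (u, x) (u', y)) ∧
            tp p G ≤ ((Fintype.card Θ : ℝ) + 1) ^ (p - 1) *
              (tp p (avm (fun θ : Θ => g (Fin.cons θ a'))) + σ ^ (2 * p) * ((Fintype.card Θ : ℝ) / (p - 1) *
                (av (fun θ : Θ => tp p (g (Fin.cons θ a'))) - tp p (avm (fun θ : Θ => g (Fin.cons θ a')))))) :=
          fun a' => hSPL κ Θ (fun θ => g (Fin.cons θ a')) p σ hp1 hp2 hσ hΘ (fun θ => hg _)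
        choose G0 hG0 hG1 hG2 using hS
        refine ⟨avm G0, avm_psd _ hG0, ?_, ?_⟩
        · intro θ x y
          rw [av_cons]
          simp only [Fin.cons_zero]
          have h1 : ∀ a' : Fin q → Θ, av (fun θ' : Θ => (if θ' = θ then (Fintype.card Θ : ℝ) else 0) *
              g (Fin.cons θ' a') x y) = g (Fin.cons θ a') x y := fun a' =>
            av_ite hΘ θ (fun θ' => g (Fin.cons θ' a') x y)
          simp only [h1]
          simp only [hG1, avm_apply]
          rw [av_sum]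
          refine Finset.sum_congr rfl (fun u _ => ?_)
          rw [av_sum]
          refine Finset.sum_congr rfl (fun u' _ => ?_)
          rw [av_mul]
        · have h1 := (hCVX (Option Θ × κ) (Fin q → Θ) G0 p hp1 hp2 (hcard q) hG0).1
          have h2 : av (fun a' => tp p (G0 a')) ≤ ((Fintype.card Θ : ℝ) + 1) ^ (p - 1) *
              (av (fun a' => tp p (g' a')) + σ ^ (2 * p) * ((Fintype.card Θ : ℝ) / (p - 1) *
                (av (fun a => tp p (g a)) - av (fun a' => tp p (g' a'))))) := by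
            rw [av_cons (fun a => tp p (g a)), ← av_sub, ← av_mul, ← av_mul, ← av_add, ← av_mul]
            exact av_mono hG2
          refine h1.trans (h2.trans ?_)
          rw [Fin.cons_zero]
          exact mul_le_mul_of_nonneg_left (by linarith) hK
      · obtain ⟨G, hGp, hGr, hGt⟩ := he'G j σ hσ
        refine ⟨G, hGp, ?_, ?_⟩
        · intro θ x y
          rw [← hGr θ x y, av_cons]
          simp only [Fin.cons_succ, hg', avm_apply, av_mul]
        · refine hGt.trans ?_
          rw [Fin.cons_succ]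
          exact mul_le_mul_of_nonneg_left (by linarith) hK

end H2STI

theorem STI (hSPL : T_SPL) (hCVX : T_CVX) (_hNNG : T_NNG) : T_STI := by
  intro κ Θ _ _ _ _ p σ hp1 hp2 hσ hΘ q g hg
  obtain ⟨e, _, hes, heG⟩ := H2STI.STIW hSPL hCVX κ Θ p hp1 hp2 hΘ q g hg
  choose G hG0 hG1 hG2 using fun b => heG b σ hσ
  refine ⟨G, hG0, hG1, ?_⟩
  have hK : (0 : ℝ) ≤ ((Fintype.card Θ : ℝ) + 1) ^ (p - 1) := by positivity
  have hσp : (0 : ℝ) ≤ σ ^ (2 * p) := by positivity
  calc ∑ b, tp p (G b) ≤ ∑ b, ((Fintype.card Θ : ℝ) + 1) ^ (p - 1) *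
            (av (fun a => tp p (g a)) + σ ^ (2 * p) * e b) := Finset.sum_le_sum (fun b _ => hG2 b)
    _ = ((Fintype.card Θ : ℝ) + 1) ^ (p - 1) *
      ((q : ℝ) * av (fun a => tp p (g a)) + σ ^ (2 * p) * ∑ b, e b) := by
        rw [← Finset.mul_sum, Finset.sum_add_distrib, Finset.sum_const, ← Finset.mul_sum,
          Finset.card_univ, Fintype.card_fin, nsmul_eq_mul]
    _ ≤ _ := mul_le_mul_of_nonneg_left (by
        have := mul_le_mul_of_nonneg_left hes hσp
        linarith) hK

end H43.PS
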